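import Pool.Agent.Q230.EM.Ex
import Pool.Agent.Q230.EM.Ren

set_option autoImplicit false

namespace Pool.Agent.Results.MP_767d8d_lc.Mode1Stronger

open Pool.Agent.Q230.EM

/-- Two-component even matrix grammars in mode 1 generate strictly more than in mode 0. -/
theorem result :
    (∀ (T : Type) [Finite T], Fam T 2 false ⊆ Fam T 2 true) ∧
    ∃ L : Set (List Bool), L ∈ Fam Bool 2 true ∧
      ∀ (T : Type) [Finite T] (f : Bool → T), Function.Injective f →
        List.map f '' L ∉ Fam T 2 false :=
  ⟨fun T _ => fam_sub T, Ex.exG.Lang true, Ex.mem_mode1, fun T _ f hf => Ex.not_mode0 T f hf⟩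

end Pool.Agent.Results.MP_767d8d_lc.Mode1Stronger
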